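import Pool.Agent.Lib.MP_28303a_al.NT.EX.Defs
import Pool.Agent.Lib.MP_28303a_al.NT.H60.Ic
import Pool.Agent.Lib.MP_28303a_al.NT.H91.Kgen

/-! # Row RLE: the two ends of the edges -/

set_option autoImplicit false
set_option linter.unusedSectionVars false
set_option linter.unusedVariables false

namespace Pool.Agent.NegK.NT.EX71

universe u

open CategoryTheory Limits Pretriangulated Idempotents
open Pool.Agent.NegK.TW Pool.Agent.NegK.TT Pool.Agent.NegK.NT.ER Pool.Agent.NegK.NT.EX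
open Pool.Agent.NegK.NT.EX91

section

variable {k : Type u} [Ring k] {Γ : Type u} [Group Γ] {V E : Type u} [MulAction Γ V]
  [MulAction Γ E]

theorem isZero_K {P : Pre Γ V} {Y : KL k P} (h : IsEmpty Y.X.ι) : IsZero Y := by
  rw [IsZero.iff_id_eq_zero]
  exact Karoubi.hom_ext _ _ ((Loc.isZero_of_isEmpty Y.X).eq_of_src _ _)

theorem kp_atx (s : E → V) (hs : ∀ (g : Γ) e, s (g • e) = g • s e) (e : E)
    (h1 : MulAction.stabilizer Γ e ≤ MulAction.stabilizer Γ (s e))
    (q : Idem (MonoidAlgebra k (MulAction.stabilizer Γ e))) :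
    (kp (wm s hs)).obj (atx e q) = atx (s e) (q.map (mdr k (Subgroup.inclusion h1))) := by
  have key : (Loc.push (wm s hs)).map (atx e q).p =
      (atx (s e) (q.map (mdr k (Subgroup.inclusion h1)))).p := by
    refine Loc.ext_basis fun i => Finsupp.ext fun j => ?_
    refine (atm_apply (dis Γ E) (MulAction.stabilizer Γ e) e
      (fun _ hg => (MulAction.mem_stabilizer_iff.1 hg).symm) q.e i j).trans
        (Eq.trans ?_ (atm_apply (dis Γ V) (MulAction.stabilizer Γ (s e)) (s e)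
          (fun _ hg => (MulAction.mem_stabilizer_iff.1 hg).symm)
          (q.map (mdr k (Subgroup.inclusion h1))).e i j).symm)
    show mdr k _ (q.e i.down j.down) = mdr k _ (mdr k _ (q.e i.down j.down))
    rw [mdr_comp_apply]
    rfl
  exact Karoubi.ext rfl ((Category.comp_id _).trans (key.trans (Category.id_comp _).symm))

end

theorem rle (hDec : EX.DecStatement.{u}) : RleStatement.{u} := by
  intro k _ Γ _ V E _ _ s t hs ht G _ Φ κ eu hκ heu hst R hR
  obtain ⟨M, hM, ⟨eM⟩⟩ := ic k (dis Γ E) R hR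
  have h1 : ∀ m : Loc.Mono (dis Γ E) (dis Γ V), eu ((hk (Loc.push m)).obj R) =
      κ.ch (((kp (k := k) m).mapHomologicalComplex (ComplexShape.up ℤ)).obj M) := by
    intro m
    refine heu.val _ _ (per_push m hR) ⟨fun n => hM.fin n, ?_⟩ ⟨?_⟩
    · obtain ⟨a, b, hab⟩ := hM.bdd
      exact ⟨a, b, fun n hn => (kp (k := k) m).map_isZero (hab n hn)⟩
    · exact (H91.tkSq k m).app R ≪≫ (H91.kpK k m).mapIso eM
  rw [h1, h1]
  have hW : ∀ Y : KL k (dis Γ E), Finite Y.X.ι → κ.S ((kp (wm s hs)).obj Y) ∧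
      κ.S ((kp (wm t ht)).obj Y) ∧
        κ.cl ((kp (wm s hs)).obj Y) = κ.cl ((kp (wm t ht)).obj Y) := by
    refine hDec k Γ E (fun Y => κ.S ((kp (wm s hs)).obj Y) ∧ κ.S ((kp (wm t ht)).obj Y) ∧
      κ.cl ((kp (wm s hs)).obj Y) = κ.cl ((kp (wm t ht)).obj Y)) ?_ ?_ ?_ ?_
    · rintro Y Y' ⟨e⟩ ⟨a, b, c⟩
      have a' := κ.iso ((kp (wm s hs)).mapIso e) a
      have b' := κ.iso ((kp (wm t ht)).mapIso e) b
      exact ⟨a'.1, b'.1, a'.2.symm.trans (c.trans b'.2)⟩
    · intro e q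
      have i1 : MulAction.stabilizer Γ e ≤ MulAction.stabilizer Γ (s e) := fun g hg => by
        rw [MulAction.mem_stabilizer_iff] at hg ⊢
        rw [← hs, hg]
      have i2 : MulAction.stabilizer Γ e ≤ MulAction.stabilizer Γ (t e) := fun g hg => by
        rw [MulAction.mem_stabilizer_iff] at hg ⊢
        rw [← ht, hg]
      rw [kp_atx s hs e i1 q, kp_atx t ht e i2 q, hκ.S, hκ.S, hκ.val, hκ.val]
      refine ⟨⟨_, ?_, ⟨Iso.refl _⟩⟩, ⟨_, ?_, ⟨Iso.refl _⟩⟩, ?_⟩
      · exact inferInstanceAs (Finite (ULift.{u} (Fin q.n)))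
      · exact inferInstanceAs (Finite (ULift.{u} (Fin q.n)))
      · exact hst e i1 i2 (K0.cls q)
    · rintro Y Y' ⟨a, b, c⟩ ⟨a', b', c'⟩
      obtain ⟨i, p, j, q, e1, e2, e3, e4, e5⟩ := H65.exists_smK Y Y'
      have hm : ∀ m : Loc.Mono (dis Γ E) (dis Γ V), κ.S ((kp m).obj Y) → κ.S ((kp m).obj Y') →
          κ.S ((kp m).obj (H65.smK Y Y')) ∧
            κ.cl ((kp m).obj (H65.smK Y Y')) = κ.cl ((kp m).obj Y) + κ.cl ((kp m).obj Y') := by
        intro m h2 h3
        refine κ.add ((kp m).map i) ((kp m).map p) ((kp m).map j) ((kp m).map q) ?_ ?_ ?_ ?_ ?_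
          h2 h3
        · rw [← CategoryTheory.Functor.map_comp, e1, CategoryTheory.Functor.map_id]
        · rw [← CategoryTheory.Functor.map_comp, e2, CategoryTheory.Functor.map_id]
        · rw [← CategoryTheory.Functor.map_comp, e3, CategoryTheory.Functor.map_zero]
        · rw [← CategoryTheory.Functor.map_comp, e4, CategoryTheory.Functor.map_zero]
        · rw [← CategoryTheory.Functor.map_comp, ← CategoryTheory.Functor.map_comp,
            ← CategoryTheory.Functor.map_add, e5, CategoryTheory.Functor.map_id]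
      refine ⟨(hm _ a a').1, (hm _ b b').1, ?_⟩
      rw [(hm _ a a').2, (hm _ b b').2, c, c']
    · intro Y hY
      have z1 : IsEmpty ((kp (wm s hs)).obj Y).X.ι := hY
      have z2 : IsEmpty ((kp (wm t ht)).obj Y).X.ι := hY
      have s1 : κ.S ((kp (wm s hs)).obj Y) := (hκ.S _).2 ⟨_, inferInstance, ⟨Iso.refl _⟩⟩
      have s2 : κ.S ((kp (wm t ht)).obj Y) := (hκ.S _).2 ⟨_, inferInstance, ⟨Iso.refl _⟩⟩
      exact ⟨s1, s2, (κ.cl_zero (isZero_K z1) s1).trans (κ.cl_zero (isZero_K z2) s2).symm⟩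
  exact finsum_congr fun n => congrArg (fun x => (Int.negOnePow n : ℤ) • x)
    (hW (M.X n) (hM.fin n)).2.2

end Pool.Agent.NegK.NT.EX71
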