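import Pool.Agent.Lib.MP_28303a_al.NT.EX.Defs
import Pool.Agent.Lib.MP_28303a_al.NT.ER71.Iter
import Pool.Agent.Lib.MP_28303a_al.NT.Main

/-! # Row KNE: the negative K-groups of the edges vanish -/

set_option autoImplicit false
set_option linter.unusedSectionVars false
set_option linter.unusedVariables false

namespace Pool.Agent.NegK.NT.EX71

universe u

open CategoryTheory Limits
open Pool.Agent.NegK.TW Pool.Agent.NegK.NT.ER

/-- The joint stabilizers in the stabilizer of an edge are in `ℛ`. -/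
theorem st_res {Γ : Type u} [Group Γ] (Y : Trees Γ) (j : Fin Y.m)
    (h : ∀ (v : ∀ i, Y.V i) (w : Y.V j), (Y.G j).Adj (v j) w →
      InRC (Y.st v ⊓ MulAction.stabilizer Γ w : Subgroup Γ)) (v w : Y.V j)
    (hvw : (Y.G j).Adj v w) (u : ∀ i, Y.V i) :
    InRC ((ER71.res Y (MulAction.stabilizer Γ v ⊓ MulAction.stabilizer Γ w :
      Subgroup Γ)).st u) := by
  classical
  have h1 := h (Function.update u j v) w (by rwa [Function.update_self])
  have h2 : (ER71.res Y (MulAction.stabilizer Γ v ⊓ MulAction.stabilizer Γ w :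
      Subgroup Γ)).st u = (Y.st u).subgroupOf
        (MulAction.stabilizer Γ v ⊓ MulAction.stabilizer Γ w) := by
    ext g
    rw [Subgroup.mem_subgroupOf, Trees.st, Trees.st, Subgroup.mem_iInf, Subgroup.mem_iInf]
    rfl
  rw [h2]
  refine TT.inRC_equiv (TT.subEquiv _ _).symm (TT.inRC_le TT.H91.sub ?_ h1)
  rintro g ⟨⟨hv, hw⟩, hu⟩
  refine ⟨?_, hw⟩
  have hu' : g ∈ Y.st u := hu
  rw [Trees.st, Subgroup.mem_iInf] at hu'
  show g ∈ Y.st (Function.update u j v)
  rw [Trees.st, Subgroup.mem_iInf]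
  intro i
  by_cases hi : i = j
  · subst hi
    rw [Function.update_self]
    exact hv
  · rw [Function.update_of_ne hi]
    exact hu' i

theorem kne : EX.KneStatement.{u} := fun Γ _ Y j h n k _ hk v w hvw =>
  vanish (trees_inL (ER71.res Y (MulAction.stabilizer Γ v ⊓ MulAction.stabilizer Γ w :
    Subgroup Γ)) (st_res Y j h v w hvw)) k hk n

end Pool.Agent.NegK.NT.EX71
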